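import Mathlib

set_option autoImplicit false

namespace Pool.Agent.Results.MP_ee7763_co.Orlin
open Finset

/-- `S` is an inclusion-maximal stable set -/
def MaxStable {V : Type} (G : SimpleGraph V) (S : Finset V) : Prop :=
  Maximal (fun s : Finset V => G.IsIndepSet (s : Set V)) S

/-- positive weights under which the maximal stable sets are exactly the sets of weight one -/
def Equistable {V : Type} (G : SimpleGraph V) : Prop :=
  ∃ φ : V → ℝ, (∀ v, 0 < φ v) ∧ ∀ S : Finset V, MaxStable G S ↔ ∑ v ∈ S, φ v = 1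

/-- general partition graphs -/
def GenPart {V : Type} (G : SimpleGraph V) : Prop :=
  ∃ (X : Type) (U : V → Set X), (∀ v, (U v).Nonempty) ∧
    (∀ u v, u ≠ v → (G.Adj u v ↔ (U u ∩ U v).Nonempty)) ∧
    ∀ S, MaxStable G S → ∀ p : X, ∃! v, v ∈ S ∧ p ∈ U v

/-- every induced subgraph has chromatic number equal to its clique number -/
def Perfect {V : Type} (G : SimpleGraph V) : Prop :=
  ∀ s : Set V, (G.induce s).chromaticNumber = (G.induce s).cliqueNum

variable {V : Type} [Fintype V] [DecidableEq V] {G : SimpleGraph V}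

def cnt (L : Multiset (Finset V)) (y : V) : ℕ := L.countP (y ∈ ·)

omit [Fintype V] in
theorem one {K S : Finset V} (k : G.IsClique K) (s : G.IsIndepSet S) : #(K ∩ S) ≤ 1 :=
  card_le_one.2 fun x a y b => by
    by_contra c
    exact s (mem_inter.1 a).2 (mem_inter.1 b).2 c (k (mem_inter.1 a).1 (mem_inter.1 b).1 c)

omit [Fintype V] in
theorem dbl (K : Finset V) (L : Multiset (Finset V)) :
    ∑ y ∈ K, cnt L y = (L.map fun S => #(K ∩ S)).sum := by
  induction L using Multiset.induction_on with
  | empty => simp [cnt]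
  | cons S L ih =>
    simp only [cnt, Multiset.countP_cons, sum_add_distrib, Multiset.map_cons, Multiset.sum_cons] at *
    rw [ih, add_comm, ← card_filter, filter_mem_eq_inter]

omit [Fintype V] in
theorem bd {K : Finset V} {L : Multiset (Finset V)} (k : G.IsClique K)
    (s : ∀ S ∈ L, G.IsIndepSet (S : Finset V)) : ∑ y ∈ K, cnt L y ≤ L.card := by
  rw [dbl]
  simpa using Multiset.sum_le_card_nsmul (L.map fun S => #(K ∩ S)) 1 fun x a => by
    obtain ⟨S, b, rfl⟩ := Multiset.mem_map.1 a
    exact one k (s S b)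

theorem rep (h : Perfect G) (n : ℕ) : ∀ w : V → ℕ, ∑ y, w y = n → ∀ k,
    (∀ K : Finset V, G.IsClique K → ∑ y ∈ K, w y ≤ k) → ∃ L : Multiset (Finset V), L.card = k ∧
      (∀ S ∈ L, G.IsIndepSet (S : Finset V)) ∧ ∀ y, cnt L y = w y := by
  induction n using Nat.strong_induction_on with | _ n ih =>
  intro w e k b
  by_cases c : ∀ x, w x ≤ 1
  · obtain ⟨t, a⟩ := (G.induce {x | w x = 1}).exists_isNClique_cliqueNum
    obtain ⟨C⟩ := SimpleGraph.chromaticNumber_le_iff_colorable.1 ((h {x | w x = 1}).trans_le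
      (Nat.cast_le.2 (show _ ≤ k from by
        refine le_trans (le_of_eq ?_) (b (t.map (.subtype _)) fun x d y f g => ?_)
        · rw [sum_map, sum_congr rfl fun x _ => x.2, ← a.2]; simp
        · obtain ⟨x, d', rfl⟩ := mem_map.1 d
          obtain ⟨y, f', rfl⟩ := mem_map.1 f
          exact a.1 d' f' fun i => g (i ▸ rfl))))
    refine ⟨univ.val.map fun i : Fin k => univ.filter fun x => ∃ d : w x = 1, C ⟨x, d⟩ = i,
      by simp, fun S d => ?_, fun y => ?_⟩
    · obtain ⟨i, -, rfl⟩ := Multiset.mem_map.1 d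
      intro x f y g _ j
      obtain ⟨f, f'⟩ := (mem_filter.1 f).2
      obtain ⟨g, g'⟩ := (mem_filter.1 g).2
      exact C.valid (v := ⟨x, f⟩) (w := ⟨y, g⟩) j (f'.trans g'.symm)
    · rw [cnt, Multiset.countP_map]
      change #(univ.filter _) = _
      by_cases d : w y = 1
      · simp [d, filter_eq]
      · have := c y
        simp [d]; omega
  push Not at c
  obtain ⟨x, c⟩ := c
  have lt : ∀ v : V → ℕ, (∀ y, v y ≤ w y) → v x < w x → ∑ y, v y < n := fun v p q =>
    e ▸ sum_lt_sum (fun y _ => p y) ⟨x, mem_univ _, q⟩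
  obtain ⟨L, l1, l2, l3⟩ := ih _ (lt (fun y => w y - if y = x then 1 else 0) (by simp)
    (by simp; omega)) _ rfl k fun K d => (sum_le_sum fun _ _ => Nat.sub_le _ _).trans (b K d)
  obtain ⟨S, s1, s2⟩ := Multiset.countP_pos.1 (show 0 < cnt L x by rw [l3]; simp; omega)
  obtain ⟨L, rfl⟩ := Multiset.exists_cons_of_mem s1
  simp only [cnt, Multiset.countP_cons] at l3
  obtain ⟨M, m1, m2, m3⟩ := ih _ (lt (fun y => w y - if y ∈ S then 1 else 0) (by simp)
    (by simp [s2]; omega)) _ rfl L.card fun K d => by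
      by_cases f : x ∈ K
      · have := b K d
        have g := sum_lt_sum (s := K) (f := fun y => w y - if y ∈ S then 1 else 0) (g := w)
          (by simp) ⟨x, f, by simp [s2]; omega⟩
        rw [Multiset.card_cons] at l1
        omega
      · refine le_trans (le_of_eq (sum_congr rfl fun y g => ?_))
          (bd d fun T g => l2 T (Multiset.mem_cons_of_mem g))
        have := l3 y
        rw [if_neg fun i : y = x => f (i ▸ g)] at this
        rw [cnt]; omega
  refine ⟨S ::ₘ M, by simp [m1, ← l1], Multiset.forall_mem_cons.2 ⟨l2 S s1, m2⟩, fun y => ?_⟩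
  have := m3 y
  have := l3 y
  simp only [cnt, Multiset.countP_cons] at *
  omega

theorem wsum (φ : V → ℝ) (L : Multiset (Finset V)) (h : ∀ S ∈ L, ∑ v ∈ S, φ v = 1) :
    ∑ y, cnt L y * φ y = L.card := by
  induction L using Multiset.induction_on with
  | empty => simp [cnt]
  | cons S L ih =>
    rw [Multiset.forall_mem_cons] at h
    simp only [cnt, Multiset.countP_cons, Nat.cast_add, add_mul, sum_add_distrib,
      Multiset.card_cons] at *
    simp [ih h.2, h.1]

def Strong (G : SimpleGraph V) (K : Finset V) : Prop :=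
  G.IsClique K ∧ ∀ S, MaxStable G S → #(K ∩ S) = 1

theorem key (h : Perfect G) (D : Finset V) (j : ℕ) (a : #D ≤ j + 1)
    (b : ∀ K, Strong G K → #(K ∩ D) ≤ j) : ∃ t : V → ℕ, (∀ x ∈ D, 1 ≤ t x) ∧
      ∀ φ : V → ℝ, (∀ S, MaxStable G S → ∑ v ∈ S, φ v = 1) → ∑ y, t y * φ y = j := by
  classical
  set A := (univ.filter (MaxStable G)).val with hA
  have mA : ∀ S, S ∈ A ↔ MaxStable G S := by simp [hA]
  obtain ⟨L, l1, l2, l3⟩ := rep h _ (fun y => cnt A y + if y ∈ D then 1 else 0) rfl (A.card + j)
    fun K c => by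
      rw [sum_add_distrib, ← card_filter, filter_mem_eq_inter]
      by_cases d : Strong G K
      · exact add_le_add (bd c fun S e => ((mA S).1 e).1) (b K d)
      · obtain ⟨S, e, f⟩ : ∃ S, MaxStable G S ∧ #(K ∩ S) ≠ 1 := by simpa [Strong, c] using d
        obtain ⟨B, g⟩ := Multiset.exists_cons_of_mem ((mA S).2 e)
        have := bd c fun T i => ((mA T).1 (g ▸ Multiset.mem_cons_of_mem i)).1
        have := one c e.1
        have := card_le_card (inter_subset_right (s₁ := K) (s₂ := D))
        rw [dbl] at *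
        rw [g, Multiset.map_cons, Multiset.sum_cons, Multiset.card_cons]
        omega
  have e : ∀ S : Finset V, ∃ T, G.IsIndepSet S → S ≤ T ∧ MaxStable G T := fun S => by
    by_cases c : G.IsIndepSet S
    · obtain ⟨T, d⟩ := Finite.exists_le_maximal (p := fun s : Finset V => G.IsIndepSet s) c
      exact ⟨T, fun _ => d⟩
    · exact ⟨S, fun d => absurd d c⟩
  choose f e using e
  have le : ∀ y, cnt A y + (if y ∈ D then 1 else 0) ≤ cnt (L.map f) y := fun y => by
    rw [← l3, cnt, cnt, Multiset.countP_map, Multiset.countP_eq_card_filter]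
    refine Multiset.card_le_card (Multiset.le_filter.2 ⟨Multiset.filter_le _ _, fun S c => ?_⟩)
    exact (e S (l2 S (Multiset.mem_filter.1 c).1)).1 (Multiset.mem_filter.1 c).2
  refine ⟨fun y => cnt (L.map f) y - cnt A y, fun x c => ?_, fun φ c => ?_⟩
  · have := le x
    simp only [c, if_true] at this
    show _ ≤ _ - _
    omega
  · have p := wsum φ A fun S d => c S ((mA S).1 d)
    have q := wsum φ (L.map f) fun S d => by
      obtain ⟨S, d', rfl⟩ := Multiset.mem_map.1 d
      exact c _ (e S (l2 S d')).2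
    rw [sum_congr rfl fun y _ => by rw [Nat.cast_sub (Nat.le_of_add_right_le (le y)), sub_mul],
      sum_sub_distrib, p, q, Multiset.card_map, l1]
    simp

theorem result {V : Type} [Fintype V] (G : SimpleGraph V) (h : Perfect G) (e : Equistable G) :
    GenPart G := by
  classical
  obtain ⟨φ, p, e⟩ := e
  have v1 : ∀ x, ∃ K, Strong G K ∧ x ∈ K := fun x => by
    by_contra! c
    obtain ⟨t, a, b⟩ := key h {x} 0 (by simp) fun K d => by simp [c K d]
    have := b φ fun S d => (e S).1 d
    refine absurd this (ne_of_gt ?_)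
    rw [Nat.cast_zero]
    exact sum_pos' (fun y _ => mul_nonneg (by positivity) (p y).le) ⟨x, mem_univ _,
      mul_pos (by exact_mod_cast a x (by simp)) (p x)⟩
  refine ⟨{K // Strong G K}, fun v => {K | v ∈ K.1}, fun v => ?_, fun u v d => ⟨fun g => ?_, ?_⟩,
    fun S s K => ?_⟩
  · obtain ⟨K, a, b⟩ := v1 v
    exact ⟨⟨K, a⟩, b⟩
  · by_contra c
    obtain ⟨t, a, b⟩ := key h {u, v} 1 card_le_two fun K i => by
      by_contra! j
      have : K ∩ {u, v} = {u, v} := eq_of_subset_of_card_le inter_subset_right (card_le_two.trans j)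
      exact c ⟨⟨K, i⟩, (mem_inter.1 (by rw [this]; simp : u ∈ K ∩ {u, v})).1,
        (mem_inter.1 (by rw [this]; simp : v ∈ K ∩ {u, v})).1⟩
    have t1 : ∀ x, t x ≤ 1 := fun x => by
      obtain ⟨K, i, j⟩ := v1 x
      have := b (fun y => if y ∈ K then 1 else 0) fun S l => by
        rw [sum_boole, filter_mem_eq_inter, inter_comm, i.2 S l, Nat.cast_one]
      have q := single_le_sum (f := fun y => (t y : ℝ) * if y ∈ K then 1 else 0)
        (fun y _ => by positivity) (mem_univ x)
      rw [this] at q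
      simpa [j] using q
    have := ((e (univ.filter fun x => t x = 1)).2 (by
      refine Eq.trans ?_ ((b φ fun S d => (e S).1 d).trans Nat.cast_one)
      rw [sum_filter]
      refine sum_congr rfl fun x _ => ?_
      have := t1 x
      split_ifs with i
      · simp [i]
      · simp [show t x = 0 by omega])).1
    have q : ∀ x ∈ ({u, v} : Finset V), x ∈ univ.filter fun x => t x = 1 := fun x i => by
      simpa using le_antisymm (t1 x) (a x i)
    exact this (q u (by simp)) (q v (by simp)) d g
  · rintro ⟨K, a, b⟩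
    exact K.2.1 a b d
  · obtain ⟨x, a⟩ := card_eq_one.1 (K.2.2 S s)
    have : ∀ y, y ∈ S ∧ y ∈ K.1 ↔ y = x := fun y => by rw [← mem_singleton, ← a, mem_inter, and_comm]
    exact ⟨x, (this x).2 rfl, fun y => (this y).1⟩

end Pool.Agent.Results.MP_ee7763_co.Orlin
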